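import Pool.Agent.Q106.ER.Spec

/-!
# MP_fc51f7_nt: the exact fluctuations of prime constellations at the critical scale, in the sieved models

The sieved model of level `Q`: a random set `A` which contains the integers `n` coprime to `Q` independently with
probability `(Q / φ(Q)) / log n` (at most `1`), and no others (`IsModel μ (level Q) A`; `Q = 1` is Cramér's model).
For a set `H` of `k` shifts (`k = 4` for the quadruplets `n, n + 2, n + 6, n + 8` of the problem) with singular series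
`𝔖` the number of `m` with `m + H ⊆ A` in a window of length `λ (log x)^(k+1)` after `x` is `λ 𝔖 log x` on average.
Almost surely the possible deviations are exactly described, jointly for finitely many patterns and windows: the limit
points of the numbers divided by `log x` are the points `a` with `∑ (a log (a / M) - a + M) ≤ 1`, `M = λ 𝔖`, and if the
sum is `c < 1` there are `X^(1 - c + o(1))` windows up to `X` whose numbers are near `a log x`.
-/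

set_option autoImplicit false

namespace Pool.Agent.Results.MP_fc51f7_nt.ExactFluctuations

open Finset MeasureTheory ProbabilityTheory Filter
open scoped Topology
open Pool.Agent.Q120.GM (IsModel level sing)

/-- The number of the integers `m` in `(x + a L, x + b L]`, `L = (log x)^(k+1)`, with `m + H ⊆ A`. -/
noncomputable def count (A : Set ℕ) (k : ℕ) (H : Finset ℕ) (a b : ℝ) (x : ℕ) : ℕ :=
  {m : ℕ | (x : ℝ) + a * Real.log x ^ (k + 1) < m ∧ (m : ℝ) ≤ x + b * Real.log x ^ (k + 1) ∧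
    ∀ h ∈ H, m + h ∈ A}.ncard

/-- The rate function of the Poisson law: `a log (a / M) - a + M` (`M` for `a = 0`). -/
noncomputable def rate (M a : ℝ) : ℝ := a * Real.log (a / M) - a + M

/-- Finitely many patterns of `k` shifts, each with a window; the windows of equal patterns are disjoint. -/
def Family {I : Type} (Q k : ℕ) (H : I → Finset ℕ) (α β : I → ℝ) : Prop :=
  (∀ i, 0 ∈ H i ∧ (H i).card = k ∧ 0 < sing Q (H i) ∧ 0 ≤ α i ∧ α i < β i) ∧
    ∀ i j, i ≠ j → H i ≠ H j ∨ β i ≤ α j ∨ β j ≤ α i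

/-- The sum of the rates. -/
noncomputable def total {I : Type} [Fintype I] (Q : ℕ) (H : I → Finset ℕ) (α β a : I → ℝ) : ℝ :=
  ∑ i, rate ((β i - α i) * sing Q (H i)) (a i)

/-- All numbers are near `a log x`. -/
def Near {I : Type} (A : Set ℕ) (k : ℕ) (H : I → Finset ℕ) (α β a : I → ℝ) (ε : ℝ) (x : ℕ) : Prop :=
  ∀ i, |(count A k (H i) (α i) (β i) x : ℝ) - a i * Real.log x| ≤ ε * Real.log x

theorem kd {I : Type} [Fintype I] [DecidableEq I] {Q k : ℕ} {H : I → Finset ℕ} {α β : I → ℝ}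
    (h : Family Q k H α β) : Pool.Agent.Q106.ER.Kd Q k H α β where
  zero := fun i => (h.1 i).1
  card := fun i => (h.1 i).2.1
  pos := fun i => (h.1 i).2.2.1
  a0 := fun i => (h.1 i).2.2.2.1
  ab := fun i => (h.1 i).2.2.2.2
  dis := h.2

theorem count_eq {Ω I : Type} [Fintype I] [DecidableEq I] {Q k : ℕ} {H : I → Finset ℕ} {α β : I → ℝ}
    (h : Family Q k H α β) (A : Ω → Set ℕ) (x : ℕ) (i : I) (ω : Ω) :
    count (A ω) k (H i) (α i) (β i) x = Pool.Agent.Q106.ER.Nu A k H α β x i ω := by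
  have hK := kd h
  unfold count Pool.Agent.Q106.ER.Nu Pool.Agent.Q106.ER.cn
  have h1 : {m : ℕ | (x : ℝ) + α i * Real.log x ^ (k + 1) < m ∧ (m : ℝ) ≤ x + β i * Real.log x ^ (k + 1) ∧
      ∀ h ∈ H i, m + h ∈ A ω} = ↑(((Pool.Agent.Q106.UR.oc A (Pool.Agent.Q106.ER.JJ k α β x)
        (Pool.Agent.Q106.ER.TT H) ω).filter (fun e => e.1 = i)).image Prod.snd) := by
    ext m
    rw [Set.mem_ofPred_eq, Finset.mem_coe, mem_image]
    have h2 : m ∈ Pool.Agent.Q106.ER.Po k (α i) (β i) x ↔ _ :=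
      Pool.Agent.Q106.ER.mem_Po (hK.a0 i) ((hK.a0 i).trans (hK.ab i).le)
    constructor
    · rintro ⟨g1, g2, g3⟩
      refine ⟨(i, m), ?_, rfl⟩
      rw [mem_filter, Pool.Agent.Q106.UR.mem_oc, Pool.Agent.Q106.ER.mem_JJ]
      refine ⟨⟨h2.2 ⟨g1, g2⟩, ?_⟩, rfl⟩
      intro b hb
      obtain ⟨h', hh, e⟩ := Pool.Agent.Q120.GM.mem_tl.1 hb
      rw [e]
      exact g3 h' hh
    · rintro ⟨⟨i', m'⟩, g1, rfl⟩
      rw [mem_filter, Pool.Agent.Q106.UR.mem_oc, Pool.Agent.Q106.ER.mem_JJ] at g1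
      obtain ⟨⟨g1, g2⟩, rfl⟩ := g1
      have g3 := h2.1 g1
      refine ⟨g3.1, g3.2, fun b hb => ?_⟩
      exact g2 _ (Pool.Agent.Q120.GM.mem_tl.2 ⟨b, hb, rfl⟩)
  rw [h1, Set.ncard_coe_finset, card_image_of_injOn]
  rintro ⟨i1, m1⟩ h1' ⟨i2, m2⟩ h2' hm
  rw [Finset.mem_coe, mem_filter] at h1' h2'
  have e1 : i1 = i := h1'.2
  have e2 : i2 = i := h2'.2
  have e3 : m1 = m2 := hm
  rw [e1, e2, e3]

theorem near_iff {Ω I : Type} [Fintype I] [DecidableEq I] {Q k : ℕ} {H : I → Finset ℕ} {α β : I → ℝ}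
    (h : Family Q k H α β) (A : Ω → Set ℕ) (a : I → ℝ) (ε : ℝ) (x : ℕ) (ω : Ω) :
    Near (A ω) k H α β a ε x ↔ ω ∈ Pool.Agent.Q106.ER.Bal A k H α β a ε x := by
  unfold Near
  refine forall_congr' (fun i => ?_)
  rw [count_eq h]

/-- **The exact fluctuations.** -/
theorem result :
    (∀ Q : ℕ, ∃ (Ω : Type) (_ : MeasurableSpace Ω) (μ : Measure Ω) (_ : IsProbabilityMeasure μ) (A : Ω → Set ℕ),
      IsModel μ (level Q) A) ∧
    ∀ (Ω : Type) [MeasurableSpace Ω] (μ : Measure Ω) [IsProbabilityMeasure μ] (A : Ω → Set ℕ) (Q : ℕ), 1 ≤ Q →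
      IsModel μ (level Q) A →
      ∀ (I : Type) [Fintype I] [Nonempty I] (k : ℕ) (H : I → Finset ℕ) (α β : I → ℝ), Family Q k H α β →
        (∀ᵐ ω ∂μ, ∀ ε : ℝ, 0 < ε → ∀ᶠ x : ℕ in atTop, ∃ a : I → ℝ, (∀ i, 0 ≤ a i) ∧ total Q H α β a ≤ 1 ∧
          Near (A ω) k H α β a ε x) ∧
        (∀ᵐ ω ∂μ, ∀ a : I → ℝ, (∀ i, 0 ≤ a i) → total Q H α β a ≤ 1 → ∀ ε : ℝ, 0 < ε → ∀ᶠ X : ℕ in atTop,
          ∃ x : ℕ, X ≤ x ∧ x ≤ 4 * X ∧ Near (A ω) k H α β a ε x) ∧
        ∀ a : I → ℝ, (∀ i, 0 ≤ a i) → total Q H α β a < 1 → ∀ δ : ℝ, 0 < δ → ∃ ε₀ : ℝ, 0 < ε₀ ∧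
          ∀ ε : ℝ, 0 < ε → ε ≤ ε₀ → ∀ᵐ ω ∂μ, ∀ᶠ X : ℕ in atTop,
            (X : ℝ) ^ (1 - total Q H α β a - δ) ≤ ({x : ℕ | x ≤ X ∧ Near (A ω) k H α β a ε x}.ncard : ℝ) ∧
            ({x : ℕ | x ≤ X ∧ Near (A ω) k H α β a ε x}.ncard : ℝ) ≤ (X : ℝ) ^ (1 - total Q H α β a + δ) := by
  refine ⟨fun Q => ⟨ℕ → Bool, inferInstance, Pool.Agent.Q120.GM.prodMeasure (level Q), inferInstance,
    Pool.Agent.Q120.GM.trueSet, Pool.Agent.Q120.GM.isModel (level Q) (Pool.Agent.Q120.GM.level_nonneg Q)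
      (Pool.Agent.Q120.GM.level_le_one Q)⟩, ?_⟩
  intro Ω _ μ _ A Q hQ hA I _ _ k H α β hF
  classical
  have hK := kd hF
  have htot : ∀ a : I → ℝ, total Q H α β a = Pool.Agent.Q106.ER.Ra (Pool.Agent.Q106.ER.MM Q H α β) a := fun a => rfl
  refine ⟨?_, ?_, ?_⟩
  · have h1 : ∀ᵐ ω ∂μ, ∀ n : ℕ, ∀ᶠ x : ℕ in atTop, ∃ a : I → ℝ, (∀ i, 0 ≤ a i) ∧
        Pool.Agent.Q106.ER.Ra (Pool.Agent.Q106.ER.MM Q H α β) a ≤ 1 ∧
        ω ∈ Pool.Agent.Q106.ER.Bal A k H α β a (1 / ((n : ℝ) + 1)) x := by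
      rw [ae_all_iff]
      intro n
      exact Pool.Agent.Q106.ER.excl hA hQ hK (by positivity)
    filter_upwards [h1] with ω hω ε hε
    obtain ⟨n, hn⟩ := exists_nat_one_div_lt hε
    filter_upwards [hω n] with x hx
    obtain ⟨a, ha0, ha1, ha2⟩ := hx
    refine ⟨a, ha0, ha1, (near_iff hF A a ε x ω).2 (fun i => ?_)⟩
    exact (ha2 i).trans (mul_le_mul_of_nonneg_right hn.le (Real.log_natCast_nonneg x))
  · filter_upwards [Pool.Agent.Q106.ER.attain hA hQ hK] with ω hω a ha0 ha1 ε hε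
    filter_upwards [hω a ha0 ha1 ε hε] with X hX
    obtain ⟨x, h1, h2, h3⟩ := hX
    exact ⟨x, h1, h2, (near_iff hF A a ε x ω).2 h3⟩
  · intro a ha0 ha1 δ hδ
    obtain ⟨ε₀, hε₀, h1⟩ := Pool.Agent.Q106.ER.spectrum hA hQ hK ha0 ha1 hδ
    refine ⟨ε₀, hε₀, fun ε hε hεε => ?_⟩
    filter_upwards [h1 ε hε hεε] with ω hω
    filter_upwards [hω] with X hX
    have h2 : {x : ℕ | x ≤ X ∧ Near (A ω) k H α β a ε x} =
        {x : ℕ | x ≤ X ∧ ω ∈ Pool.Agent.Q106.ER.Bal A k H α β a ε x} := by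
      ext x
      rw [Set.mem_ofPred_eq, Set.mem_ofPred_eq, near_iff hF]
    rw [h2]
    exact hX

end Pool.Agent.Results.MP_fc51f7_nt.ExactFluctuations
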