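import Pool.Agent.Q117.LF.Main3
import Pool.Agent.Q117.LF.Cnt
import Pool.Agent.Q117.LF.T45

/-!
MP_fc51f7_nt (five consecutive odd integers, four of them primes): the middle one is `15 m`; any of the numbers `m`, `15 m ± 2`, `15 m ± 4` prime, any
other one a product of at most two primes, the remaining three almost primes, and both `m` and the five consecutive odd integers isolated.
-/

set_option autoImplicit false

namespace Pool.Agent.Results.MP_fc51f7_nt.IsolatedFive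

/-- the scale of Rankin -/
noncomputable def R (X : ℝ) : ℝ :=
  Real.log X * Real.log (Real.log X) * Real.log (Real.log (Real.log (Real.log X))) / (Real.log (Real.log (Real.log X))) ^ 2

/-- all prime factors of `m` are `> z` (so `0` is not rough) -/
def Rough (z : ℝ) (m : ℤ) : Prop := ∀ p : ℕ, p.Prime → (p : ℤ) ∣ m → z < p

/-- at most two prime factors (with multiplicity), all `> z` -/
def AtMostTwo (z : ℝ) (m : ℤ) : Prop := m.natAbs.primeFactorsList.length ≤ 2 ∧ Rough z m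

/-- the four outer members of the five consecutive odd integers with middle one `15 m`, and `m` -/
def member (m : ℕ) : Fin 5 → ℤ := ![(m : ℤ), 15 * m - 4, 15 * m - 2, 15 * m + 2, 15 * m + 4]

/-- all the integers at distance `≤ D` from `m`, resp. `15 m`, except for `m`, resp. `15 m ± 2`, `15 m ± 4`, have a prime factor `≤ log X` -/
def Isolated (X D : ℝ) (m : ℕ) : Prop :=
  ∀ s : ℤ, |(s : ℝ)| ≤ D → (s ≠ 0 → ¬ Rough (Real.log X) ((m : ℤ) + s)) ∧
    (s ≠ -4 → s ≠ -2 → s ≠ 2 → s ≠ 4 → ¬ Rough (Real.log X) (15 * (m : ℤ) + s))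

theorem result : ∃ t : ℕ, 1 ≤ t ∧ ∃ c : ℝ, 0 < c ∧ ∃ X0 : ℝ, ∀ X : ℝ, X0 ≤ X → ∀ i j : Fin 5, i ≠ j →
    X ^ (99 / 100 : ℝ) ≤ ({m : ℕ | X < m ∧ (m : ℝ) ≤ 2 * X ∧ (member m i).natAbs.Prime ∧ AtMostTwo (X ^ (1 / 8 : ℝ)) (member m j) ∧
      (∀ l, Rough (X ^ (1 / (t : ℝ))) (member m l)) ∧ Isolated X (c * R X) m}.ncard : ℝ) := by
  obtain ⟨t, ht, c, hc, X0, h⟩ := Pool.Agent.Q117.LF.t45 Pool.Agent.Q117.LF.famC
  refine ⟨t, ht, c, hc, max X0 0, fun X hX i j hij => ?_⟩
  have hX0 : (0 : ℝ) ≤ X := (le_max_right _ _).trans hX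
  exact Pool.Agent.Q117.LF.cnt hX0 _ _ (h X ((le_max_left _ _).trans hX) i j hij)

end Pool.Agent.Results.MP_fc51f7_nt.IsolatedFive
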