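import Pool.Agent.Q175.NP.Gen

/-!
# Five consecutive odd integers with four almost primes in narrow progressions

For an odd `n > 5` the set `{n, n + 2, n + 4, n + 6, n + 8}` can contain four primes only if `15 ∣ n + 4`; write `n + 4 = 15 m`.
There is `t` such that the `m` at which `m` and the four numbers `15 m ± 2`, `15 m ± 4` have no prime factor `≤ X ^ (1/t)` have at
least the expected order of magnitude in all intervals of length `θ X`, every subset of positive relative density contains arithmetic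
progressions of any length whose difference is at most a power of `log X`, and for every colouring there are such progressions of
one colour along which the number of the prime factors of each of the five numbers is constant.
-/

set_option autoImplicit false

namespace Pool.Agent.Results.MP_fc51f7_nt.NarrowProgressions

open Finset
open Pool.Agent.Q253.Thin (VZ_low)
open Pool.Agent.Q175.NP

/-- the cofactor `m` of the middle number `n + 4 = 15 m` and the four numbers `n`, `n + 2`, `n + 6`, `n + 8` -/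
def val (m : ℕ) : Fin 5 → ℕ := ![m, 15 * m - 4, 15 * m - 2, 15 * m + 2, 15 * m + 4]

open Classical in
/-- the `m` of `(A, B]` such that the numbers `val m i` have no prime factor `≤ X ^ (1/t)` -/
noncomputable def G (t X A B : ℕ) : Finset ℕ :=
  (Ioc A B).filter (fun m => ∀ i, ∀ q : ℕ, q.Prime → q ∣ val m i → (X : ℝ) ^ (1 / (t : ℝ)) < q)

lemma mem_G {t X A B m : ℕ} : m ∈ G t X A B ↔ (A < m ∧ m ≤ B) ∧
    ∀ i, ∀ q : ℕ, q.Prime → q ∣ val m i → (X : ℝ) ^ (1 / (t : ℝ)) < q := by
  classical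
  unfold G
  rw [mem_filter, mem_Ioc]

/-- the forms -/
def ca : Fin 5 → ℤ := ![1, 15, 15, 15, 15]
def cb : Fin 5 → ℤ := ![0, -4, -2, 2, 4]

lemma val_eq {m : ℕ} (hm : 1 ≤ m) (i : Fin 5) : ((val m i : ℕ) : ℤ) = ca i * m + cb i := by
  have h1 : 4 ≤ 15 * m := by omega
  have h2 : 2 ≤ 15 * m := by omega
  fin_cases i
  · simp [val, ca, cb]
  · simp [val, ca, cb, Nat.cast_sub h1]
    ring
  · simp [val, ca, cb, Nat.cast_sub h2]
    ring
  · simp [val, ca, cb]
  · simp [val, ca, cb]

lemma adm : Adm ca cb where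
  cop i := by
    fin_cases i
    · exact ⟨1, 0, by simp [ca, cb]⟩
    · exact ⟨-1, -4, by simp [ca, cb]⟩
    · exact ⟨1, 7, by simp [ca, cb]⟩
    · exact ⟨1, -7, by simp [ca, cb]⟩
    · exact ⟨-1, 4, by simp [ca, cb]⟩
  loc p hp := by
    have key : ∀ q : ℕ, q.Prime → p ≠ q → ¬ (p : ℤ) ∣ (q : ℤ) := by
      intro q hq hpq h
      apply hpq
      exact (Nat.prime_dvd_prime_iff_eq hp hq).1 (by exact_mod_cast h)
    have h1 : ¬ (p : ℤ) ∣ 1 := by
      intro h
      have : p ∣ 1 := by exact_mod_cast h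
      have := Nat.le_of_dvd one_pos this
      have := hp.one_lt
      omega
    by_cases hA : p = 11 ∨ p = 13 ∨ p = 17 ∨ p = 19
    · refine ⟨7, fun i => ?_⟩
      fin_cases i
      · have := key 7 (by norm_num) (by omega)
        simpa [ca, cb] using this
      · have := key 101 (by norm_num) (by omega)
        simpa [ca, cb] using this
      · have := key 103 (by norm_num) (by omega)
        simpa [ca, cb] using this
      · have := key 107 (by norm_num) (by omega)
        simpa [ca, cb] using this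
      · have := key 109 (by norm_num) (by omega)
        simpa [ca, cb] using this
    · push Not at hA
      obtain ⟨g1, g2, g3, g4⟩ := hA
      refine ⟨1, fun i => ?_⟩
      fin_cases i
      · simpa [ca, cb] using h1
      · have := key 11 (by norm_num) g1
        simpa [ca, cb] using this
      · have := key 13 (by norm_num) g2
        simpa [ca, cb] using this
      · have := key 17 (by norm_num) g3
        simpa [ca, cb] using this
      · have := key 19 (by norm_num) g4
        simpa [ca, cb] using this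

lemma G_eq (t X A B : ℕ) : G t X A B = Gf t X A B ca cb := by
  ext m
  rw [mem_G, mem_Gf]
  refine and_congr_right fun hm => ?_
  constructor
  · intro h i q hq hqd
    apply h i q hq
    rw [← val_eq (by omega)] at hqd
    exact_mod_cast hqd
  · intro h i q hq hqd
    apply h i q hq
    rw [← val_eq (by omega)]
    exact_mod_cast hqd

/-- **Four almost primes among five consecutive odd integers, in narrow progressions.** -/
theorem result : ∃ t : ℕ, 1 ≤ t ∧
    (∃ c : ℝ, 0 < c ∧ ∀ θ : ℝ, 0 < θ → ∃ X₀ : ℕ, ∀ X : ℕ, X₀ ≤ X → ∀ A B : ℕ, θ * X ≤ (B : ℝ) - A →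
      c * (((B : ℝ) - A) / Real.log X ^ 5) ≤ ((G t X A B).card : ℝ)) ∧
    (∀ (L : ℕ) (θ ε : ℝ), 0 < θ → 0 < ε → ∃ D X₀ : ℕ, ∀ X : ℕ, X₀ ≤ X → ∀ A B : ℕ, θ * X ≤ (B : ℝ) - A → B ≤ X →
      ∀ S ⊆ G t X A B, ε * ((G t X A B).card : ℝ) ≤ S.card →
      ∃ m d : ℕ, 1 ≤ d ∧ (d : ℝ) ≤ Real.log X ^ D ∧ ∀ j < L, m + j * d ∈ S) ∧
    (∀ (L r : ℕ) (θ : ℝ), 1 ≤ r → 0 < θ → ∃ D X₀ : ℕ, ∀ X : ℕ, X₀ ≤ X → ∀ A B : ℕ, 2 ≤ A →
      θ * X ≤ (B : ℝ) - A → B ≤ X → ∀ col : ℕ → Fin r,
      ∃ s : Fin 5 → ℕ, (∀ i, 1 ≤ s i ∧ s i ≤ 2 * t) ∧ ∃ o : Fin r, ∃ m d : ℕ,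
        1 ≤ d ∧ (d : ℝ) ≤ Real.log X ^ D ∧ ∀ j < L, m + j * d ∈ G t X A B ∧ col (m + j * d) = o ∧
        ∀ i, (val (m + j * d) i).primeFactorsList.length = s i) := by
  classical
  obtain ⟨t, ht, ⟨c, hc, h1⟩, h2, h3⟩ := main (Fin 5)
  refine ⟨t, ht, ?_, ?_, ?_⟩
  · obtain ⟨c', hc', hlow⟩ := VZ_low 5 (by norm_num)
    refine ⟨c * c', by positivity, fun θ hθ => ?_⟩
    obtain ⟨X₀, H⟩ := h1 θ hθ
    refine ⟨max X₀ 2, fun X hX A B hAB => ?_⟩
    have h4 := H X ((le_max_left _ _).trans hX) _ _ adm A B hAB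
    have hs := sysL adm
    rw [Fintype.card_fin] at hs
    have h5 := hlow X ((le_max_right _ _).trans hX) _ hs
    rw [VV_eq] at h5
    rw [G_eq]
    refine le_trans ?_ h4
    have hBA : 0 ≤ (B : ℝ) - A := le_trans (by positivity) hAB
    unfold VL
    calc c * c' * (((B : ℝ) - A) / Real.log X ^ 5) =
          c * (((B : ℝ) - A) * (c' / Real.log X ^ 5)) := by ring
      _ ≤ _ := by gcongr
  · intro L θ ε hθ hε
    obtain ⟨D, X₀, H⟩ := h2 L θ ε hθ hε
    refine ⟨D, X₀, fun X hX A B hAB hBX S hS hSc => ?_⟩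
    rw [G_eq] at hS hSc
    exact H X hX _ _ adm A B hAB hBX S hS hSc
  · intro L r θ hr hθ
    obtain ⟨D, X₀, H⟩ := h3 2 L r θ hr hθ
    refine ⟨D, max X₀ 19, fun X hX A B hA hAB hBX col => ?_⟩
    have hX2 : 19 ≤ X := (le_max_right _ _).trans hX
    obtain ⟨s, hs, o, m, d, hd1, hd2, hd3⟩ := H X ((le_max_left _ _).trans hX) _ _ adm A B hAB hBX (by
      intro i n hn1 hn2
      rw [← val_eq (by omega)]
      have h7 : 19 * X ≤ X * X := Nat.mul_le_mul_right _ hX2
      have h8 : X ^ 2 = X * X := sq X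
      have h9 : 2 ≤ val n i ∧ val n i ≤ X ^ 2 := by
        fin_cases i <;> simp [val] <;> omega
      exact ⟨by exact_mod_cast h9.1, by exact_mod_cast h9.2⟩) col
    refine ⟨s, hs, o, m, d, hd1, hd2, fun j hj => ?_⟩
    obtain ⟨g1, g2, g3, g4⟩ := hd3 j hj
    have hfv : ∀ i, fv ca cb i (m + j * d) = val (m + j * d) i := by
      intro i
      unfold fv
      rw [← val_eq (by omega)]
      simp
    refine ⟨?_, g3, fun i => ?_⟩
    · rw [mem_G]
      refine ⟨⟨g1, g2⟩, fun i q hq hqd => ?_⟩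
      apply (g4 i).2 q hq
      rw [hfv]
      exact hqd
    · rw [← hfv]
      exact (g4 i).1

end Pool.Agent.Results.MP_fc51f7_nt.NarrowProgressions
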