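import Pool.Agent.Q138.PS.UO
import Pool.Agent.Results.MP_fc51f7_nt.RegularWindows

/-!
# Prime and almost prime constellations in all windows around the numbers `⌊α P(m)⌋`

There are `r` and `c₁, c₂, K, κ > 0` with the following property. Let `q ≥ 2`. Outside a set of real numbers of Hausdorff
dimension at most `q / (q + 1 / (q 2 ^ (q - 1)))` (that is `8 / 9` for `q = 2`) every `α > 0` has an `η > 0` such that for ALL
integral polynomials `P` of degree `q` with positive leading coefficient and coefficients of size at most `N ^ η` at least `κ N` of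
the numbers `n = ⌊α P(m)⌋`, `m ≤ N`, are regular: every interval `(a, b]` with `a ≤ n ≤ b` and
`K log⁴ n ≤ b - a ≤ n` contains between `c₁ (b - a) / log⁴ n` and `c₂ (b - a) / log⁴ n` primes `l` for which `l + 2`, `l + 6` and
`l + 8` have at most `r` prime factors each, all larger than `n ^ (1 / r)`.
-/

set_option autoImplicit false

namespace Pool.Agent.Results.MP_fc51f7_nt.RegularAlongRealMultiples

open Finset Filter Topology
open Pool.Agent.Q138.PS
open Pool.Agent.Results.MP_fc51f7_nt.RegularWindows (Regular)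

open Classical in
/-- the number of the `1 ≤ m ≤ N` for which `⌊α P(m)⌋` is regular -/
noncomputable def count (r : ℕ) (c₁ c₂ K α : ℝ) (P : Polynomial ℤ) (N : ℕ) : ℕ :=
  ((Icc 1 N).filter fun m : ℕ => Regular r c₁ c₂ K ⌊α * ((P.eval (m : ℤ) : ℤ) : ℝ)⌋₊).card

theorem count_eq (r : ℕ) (c₁ c₂ K α : ℝ) (P : Polynomial ℤ) (N : ℕ) :
    (count r c₁ c₂ K α P N : ℝ) = cnP (Regular r c₁ c₂ K) α P N := by
  classical
  unfold count cnP cn
  refine congrArg _ (congrArg _ ?_)
  ext n
  simp only [mem_filter]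

/-- **Theorem.** There are `r` and `c₁, c₂, K, κ > 0` such that for each `q ≥ 2` there is a set `E` of Hausdorff dimension at most
`q / (q + 1 / (q 2 ^ (q - 1)))` such that for each `α > 0` outside `E` there is `η > 0` with: for all large `N` and uniformly in
`P`, at least `κ N` of the numbers `⌊α P(m)⌋`, `m ≤ N`, are regular. -/
theorem result :
    ∃ (r : ℕ) (c₁ c₂ K κ : ℝ), 0 < c₁ ∧ 0 < c₂ ∧ 0 < K ∧ 0 < κ ∧ ∀ q : ℕ, 2 ≤ q →
    ∃ E : Set ℝ, dimH E ≤ ENNReal.ofReal (q / (q + 1 / ((q : ℝ) * 2 ^ (q - 1)))) ∧ ∀ α : ℝ, 0 < α → α ∉ E →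
      ∃ η : ℝ, 0 < η ∧ ∀ᶠ N : ℕ in atTop, ∀ P : Polynomial ℤ, P.natDegree = q → 0 < P.leadingCoeff →
        (∀ j, |((P.coeff j : ℤ) : ℝ)| ≤ (N : ℝ) ^ η) → κ * N ≤ (count r c₁ c₂ K α P N : ℝ) := by
  classical
  obtain ⟨r, c₁, c₂, K, κ, h1, h2, h3, h4, h⟩ := Pool.Agent.Results.MP_fc51f7_nt.RegularWindows.result
  refine ⟨r, c₁, c₂, K, κ / 2, h1, h2, h3, by positivity, fun q hq => ?_⟩
  obtain ⟨E, hE, hg⟩ := low_pos (ι := Unit) q hq (fun _ => Regular r c₁ c₂ K) (fun _ => κ) (fun _ => h4) (by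
    intro _
    filter_upwards [h] with y hy
    refine hy.trans (le_of_eq ?_)
    unfold cn
    refine congrArg _ (congrArg _ ?_)
    ext n
    simp only [mem_filter])
  refine ⟨E, hE, fun α hα hαE => ?_⟩
  obtain ⟨η, hη, hN⟩ := hg α hα hαE ()
  refine ⟨η, hη, ?_⟩
  filter_upwards [hN] with N g P hdeg hlead hco
  rw [count_eq]
  exact g P hdeg hlead hco

end Pool.Agent.Results.MP_fc51f7_nt.RegularAlongRealMultiples
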